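import Pool.Agent.Helper27.UC.Goals

/-!
Packet TAU of PROJECT UC (helper4): general position of the involution point.
-/

set_option autoImplicit false

noncomputable section

namespace Pool.Agent.Helper4.UC.TAU

open Polynomial Module Pool.Agent.Helper27.UC

section

variable {K : Type} [Field K] [CharZero K]

/-- an even polynomial is a polynomial in `X ^ 2` -/
theorem even_form (m : ℕ) (g : Polynomial K) (hd : g.natDegree ≤ 2 * m) (he : g.comp (-X) = g) :
    ∃ h : Polynomial K, h.natDegree ≤ m ∧ g = h.comp (X ^ 2) := by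
  refine ⟨∑ i ∈ Finset.range (m + 1), C (g.coeff (2 * i)) * X ^ i, ?_, ?_⟩
  · refine Polynomial.natDegree_sum_le_of_forall_le _ _ fun i hi => ?_
    refine (Polynomial.natDegree_C_mul_X_pow_le _ _).trans ?_
    have := Finset.mem_range.1 hi
    omega
  · have hodd : ∀ n, Odd n → g.coeff n = 0 := by
      intro n hn
      have h1 : (g.comp (-X)).coeff n = g.coeff n := congrArg (fun q => q.coeff n) he
      have h0 : (-X : Polynomial K) = C (-1) * X := by rw [C_neg, C_1, neg_one_mul]
      rw [h0, Polynomial.comp_C_mul_X_coeff, hn.neg_one_pow] at h1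
      have h2 : (2 : K) * g.coeff n = 0 := by linear_combination -h1
      exact (mul_eq_zero.1 h2).resolve_left two_ne_zero
    rw [Polynomial.comp, Polynomial.eval₂_finsetSum]
    ext n
    rw [Polynomial.finsetSum_coeff]
    rcases Nat.even_or_odd' n with ⟨k, rfl | rfl⟩
    · by_cases hk : k ≤ m
      · rw [Finset.sum_eq_single k]
        · rw [← Polynomial.comp, Polynomial.mul_comp, Polynomial.C_comp, Polynomial.X_pow_comp, ← pow_mul,
            Polynomial.coeff_C_mul_X_pow, if_pos rfl]
        · intro b _ hb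
          rw [← Polynomial.comp, Polynomial.mul_comp, Polynomial.C_comp, Polynomial.X_pow_comp, ← pow_mul,
            Polynomial.coeff_C_mul_X_pow, if_neg]
          omega
        · intro h
          exact absurd (Finset.mem_range.2 (by omega)) h
      · rw [Polynomial.coeff_eq_zero_of_natDegree_lt (by omega)]
        symm
        refine Finset.sum_eq_zero fun b hb => ?_
        rw [← Polynomial.comp, Polynomial.mul_comp, Polynomial.C_comp, Polynomial.X_pow_comp, ← pow_mul,
            Polynomial.coeff_C_mul_X_pow, if_neg]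
        have := Finset.mem_range.1 hb
        omega
    · rw [hodd _ ⟨k, rfl⟩]
      symm
      refine Finset.sum_eq_zero fun b hb => ?_
      rw [← Polynomial.comp, Polynomial.mul_comp, Polynomial.C_comp, Polynomial.X_pow_comp, ← pow_mul,
            Polynomial.coeff_C_mul_X_pow, if_neg]
      omega

/-- the polynomial family -/
def c0 {ν m : ℕ} (b : Fin ν → Polynomial K) (k : Fin ν ⊕ Fin (m + 1)) (s : ℕ) : Polynomial K :=
  Sum.elim (fun j : Fin ν => if s = 0 then b j else 0)
    (fun i : Fin (m + 1) => C ((Nat.choose (i : ℕ) s : ℕ) : K) * X ^ ((i : ℕ) + s)) k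

theorem c0_sum {ν m : ℕ} (b : Fin ν → Polynomial K) (ε : K) (k : Fin ν ⊕ Fin (m + 1)) :
    (∑ s ∈ Finset.range (m + 1), ε ^ s • c0 b k s) =
      Sum.elim b (fun i : Fin (m + 1) => (X * (1 + C ε * X)) ^ (i : ℕ)) k := by
  rcases k with j | i
  · simp only [c0, Sum.elim_inl]
    rw [Finset.sum_eq_single 0]
    · simp
    · intro s _ hs
      rw [if_neg hs, smul_zero]
    · intro h
      simp at h
  · simp only [c0, Sum.elim_inr]
    rw [mul_pow, add_comm (1 : Polynomial K), add_pow, Finset.mul_sum]
    have hi : (i : ℕ) + 1 ≤ m + 1 := by omega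
    rw [← Finset.sum_subset (Finset.range_subset_range.2 hi)]
    · refine Finset.sum_congr rfl fun s hs => ?_
      rw [Polynomial.smul_eq_C_mul, one_pow, mul_one, mul_pow, ← C_pow, Polynomial.C_eq_natCast,
        pow_add]
      ring
    · intro s _ hs
      rw [Finset.mem_range, not_lt] at hs
      rw [Nat.choose_eq_zero_of_lt (by omega)]
      simp

theorem c0_zero {ν m : ℕ} (b : Fin ν → Polynomial K) :
    (fun k : Fin ν ⊕ Fin (m + 1) => c0 b k 0) =
      Sum.elim b (fun i : Fin (m + 1) => (X : Polynomial K) ^ (i : ℕ)) := by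
  funext k
  rcases k with j | i
  · simp [c0]
  · simp [c0]

theorem ind_X (m : ℕ) : LinearIndependent K (fun i : Fin (m + 1) => (X : Polynomial K) ^ (i : ℕ)) := by
  have h1 : LinearIndependent K (fun n : ℕ => (X : Polynomial K) ^ n) := by
    have h2 := (Polynomial.basisMonomials K).linearIndependent
    have h3 : (⇑(Polynomial.basisMonomials K) : ℕ → Polynomial K) = fun n => X ^ n := by
      funext n
      rw [Polynomial.coe_basisMonomials, Polynomial.X_pow_eq_monomial]
    rw [h3] at h2
    exact h2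
  exact h1.comp (fun i : Fin (m + 1) => (i : ℕ)) Fin.val_injective

theorem ind_zero {ν m : ℕ} (U : Submodule K (Polynomial K)) (b : Basis (Fin ν) K U)
    (hlow : ∀ f ∈ U, f.natDegree ≤ m → f = 0) :
    LinearIndependent K (fun k : Fin ν ⊕ Fin (m + 1) => c0 (fun j => (b j : Polynomial K)) k 0) := by
  rw [c0_zero]
  refine LinearIndependent.sum_type ?_ (ind_X m) ?_
  · exact b.linearIndependent.map' U.subtype (Submodule.ker_subtype U)
  · rw [Submodule.disjoint_def]
    intro f hf1 hf2
    have hfU : f ∈ U := by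
      refine (Submodule.span_le.2 ?_) hf1
      rintro _ ⟨j, rfl⟩
      exact (b j).2
    refine hlow f hfU ?_
    have hle : Submodule.span K (Set.range fun i : Fin (m + 1) => (X : Polynomial K) ^ (i : ℕ)) ≤
        Polynomial.degreeLE K (m : ℕ) := by
      refine Submodule.span_le.2 ?_
      rintro _ ⟨i, rfl⟩
      rw [SetLike.mem_coe, Polynomial.mem_degreeLE, Polynomial.degree_X_pow]
      exact_mod_cast (by omega : (i : ℕ) ≤ m)
    have h3 := hle hf2
    rw [Polynomial.mem_degreeLE] at h3
    exact Polynomial.natDegree_le_of_degree_le h3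

theorem exists_eps (hSEM : S_SEM) {ν m : ℕ} (U : Submodule K (Polynomial K)) (b : Basis (Fin ν) K U)
    (hlow : ∀ f ∈ U, f.natDegree ≤ m → f = 0) :
    ∃ ε : K, ε ≠ 0 ∧ LinearIndependent K (Sum.elim (fun j => (b j : Polynomial K))
      (fun i : Fin (m + 1) => ((X : Polynomial K) * (1 + C ε * X)) ^ (i : ℕ))) := by
  have h1 := ind_zero U b hlow
  have h2 : LinearIndependent K (fun k : Fin (ν + (m + 1)) =>
      c0 (fun j => (b j : Polynomial K)) (finSumFinEquiv.symm k) 0) :=
    (linearIndependent_equiv finSumFinEquiv.symm).2 h1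
  obtain ⟨ε, hε, hli⟩ := hSEM K (Polynomial K) (ν + (m + 1)) m
    (fun k s => c0 (fun j => (b j : Polynomial K)) (finSumFinEquiv.symm k) s) h2
  refine ⟨ε, hε, ?_⟩
  have h3 : (fun k : Fin (ν + (m + 1)) => ∑ s ∈ Finset.range (m + 1),
      ε ^ s • c0 (fun j => (b j : Polynomial K)) (finSumFinEquiv.symm k) s) =
      (Sum.elim (fun j => (b j : Polynomial K))
      (fun i : Fin (m + 1) => ((X : Polynomial K) * (1 + C ε * X)) ^ (i : ℕ))) ∘
        (finSumFinEquiv.symm : Fin (ν + (m + 1)) → Fin ν ⊕ Fin (m + 1)) := by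
    funext k
    rw [c0_sum]
    rfl
  rw [h3] at hli
  exact (linearIndependent_equiv finSumFinEquiv.symm).1 hli

theorem span_form (m : ℕ) (ε τ : K) (hτ : 2 * ε * τ = 1) (f : Polynomial K) (hd : f.natDegree ≤ 2 * m)
    (hf : f.comp (X - C τ) = f.comp (-X - C τ)) :
    ∃ k : Polynomial K, k.natDegree ≤ m ∧ f = k.comp (X * (1 + C ε * X)) := by
  obtain ⟨h, hh, hg⟩ := even_form m (f.comp (X - C τ))
    (by
      rw [Polynomial.natDegree_comp, Polynomial.natDegree_X_sub_C, mul_one]
      exact hd)
    (by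
      rw [Polynomial.comp_assoc, hf]
      congr 1
      rw [Polynomial.sub_comp, Polynomial.X_comp, Polynomial.C_comp])
  refine ⟨h.comp (C (2 * τ) * X + C (τ ^ 2)), ?_, ?_⟩
  · rw [Polynomial.natDegree_comp]
    calc h.natDegree * (C (2 * τ) * X + C (τ ^ 2)).natDegree ≤ m * 1 :=
          Nat.mul_le_mul hh (Polynomial.natDegree_linear_le)
      _ = m := mul_one m
  · have h1 : f = (f.comp (X - C τ)).comp (X + C τ) := by
      rw [Polynomial.comp_assoc, Polynomial.sub_comp, Polynomial.X_comp, Polynomial.C_comp,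
        add_sub_cancel_right, Polynomial.comp_X]
    rw [h1, hg, Polynomial.comp_assoc, Polynomial.comp_assoc]
    congr 1
    rw [Polynomial.X_pow_comp, Polynomial.add_comp, Polynomial.mul_comp, Polynomial.C_comp,
      Polynomial.X_comp, Polynomial.C_comp]
    have h2 : (C (2 * ε * τ) : Polynomial K) = 1 := by rw [hτ, C_1]
    have h3 : (C (2 : K) : Polynomial K) = 2 := rfl
    rw [C_mul, C_mul, h3] at h2
    rw [C_mul, C_pow, h3]
    linear_combination (-X ^ 2 : Polynomial K) * h2

theorem zero_of_form {ν m : ℕ} (U : Submodule K (Polynomial K)) (b : Basis (Fin ν) K U) (q : Polynomial K)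
    (hli : LinearIndependent K (Sum.elim (fun j => (b j : Polynomial K))
      (fun i : Fin (m + 1) => q ^ (i : ℕ)))) (f k : Polynomial K) (hfU : f ∈ U)
    (hk : k.natDegree ≤ m) (hf : f = k.comp q) : f = 0 := by
  have hdis := ((linearIndependent_sum).1 hli).2.2
  rw [Submodule.disjoint_def] at hdis
  refine hdis f ?_ ?_
  · have h1 : (⟨f, hfU⟩ : U) ∈ Submodule.span K (Set.range b) := by
      rw [b.span_eq]
      trivial
    have h2 := Submodule.mem_map_of_mem (f := U.subtype) h1
    rw [Submodule.map_span, ← Set.range_comp] at h2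
    exact h2
  · rw [hf, Polynomial.comp, Polynomial.eval₂_eq_sum_range' C (Nat.lt_succ_of_le hk)]
    refine Submodule.sum_mem _ fun i hi => ?_
    rw [← Polynomial.smul_eq_C_mul]
    refine Submodule.smul_mem _ _ (Submodule.subset_span ⟨⟨i, Finset.mem_range.1 hi⟩, rfl⟩)

end

theorem t (hSEM : S_SEM) : S_TAU := by
  intro K _ _ m U hU hdim hlow
  haveI : FiniteDimensional K U := by
    have h1 : U ≤ Polynomial.degreeLT K (2 * m + 1) := by
      intro f hf
      rw [Polynomial.mem_degreeLT]
      refine lt_of_le_of_lt (Polynomial.degree_le_of_natDegree_le (hU f hf)) ?_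
      exact_mod_cast Nat.lt_succ_self (2 * m)
    haveI : FiniteDimensional K (Polynomial.degreeLT K (2 * m + 1)) :=
      LinearEquiv.finiteDimensional (Polynomial.degreeLTEquiv K (2 * m + 1)).symm
    exact Submodule.finiteDimensional_of_le h1
  obtain ⟨ε, hε, hli⟩ := exists_eps hSEM U (Module.finBasis K U) hlow
  have hτ : 2 * ε * (1 / (2 * ε)) = 1 := by
    have : (2 : K) * ε ≠ 0 := mul_ne_zero two_ne_zero hε
    field_simp
  refine ⟨1 / (2 * ε), fun f hfU hf => ?_⟩
  obtain ⟨k, hk, hfk⟩ := span_form m ε (1 / (2 * ε)) hτ f (hU f hfU) hf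
  exact zero_of_form U (Module.finBasis K U) _ hli f k hfU hk hfk

end Pool.Agent.Helper4.UC.TAU
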